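import Mathlib

set_option autoImplicit false

namespace Pool.Agent.Results.MP_0168d2_co.PalindromeDeficit

/-- `L` is a language on the alphabet `A` (all letters occur): it contains the empty word and every
one-letter word, it is factorial (removing the first or the last letter of a nonempty word of `L`
gives a word of `L`) and extendable to the left and to the right. -/
structure IsLanguage {A : Type} (L : Set (List A)) : Prop where
  nil_mem : [] ∈ L
  letters : ∀ a : A, [a] ∈ L
  factorial_left : ∀ (a : A) (u : List A), a :: u ∈ L → u ∈ L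
  factorial_right : ∀ (u : List A) (b : A), u ++ [b] ∈ L → u ∈ L
  extendable_left : ∀ v ∈ L, ∃ a : A, a :: v ∈ L
  extendable_right : ∀ v ∈ L, ∃ b : A, v ++ [b] ∈ L

/-- `w` is bispecial: `w ∈ L` and it has at least two left and at least two right extensions. -/
def IsBispecial {A : Type} (L : Set (List A)) (w : List A) : Prop :=
  w ∈ L ∧ (∃ a a' : A, a ≠ a' ∧ a :: w ∈ L ∧ a' :: w ∈ L) ∧
    ∃ b b' : A, b ≠ b' ∧ w ++ [b] ∈ L ∧ w ++ [b'] ∈ L

/-- The order condition for the pair of strict orders `(lA, lD)`. -/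
def OrderCondition {A : Type} (L : Set (List A)) (lA lD : A → A → Prop) : Prop :=
  ∀ v, IsBispecial L v → ∀ x x' y y' : A, x :: (v ++ [y]) ∈ L → x' :: (v ++ [y']) ∈ L →
    x ≠ x' → y ≠ y' → (lA x x' ↔ lD y y')

/-- `a` and `a'` are consecutive for the strict order `lt`, with `a` below `a'`. -/
def Consecutive {A : Type} (lt : A → A → Prop) (a a' : A) : Prop :=
  lt a a' ∧ ∀ c, ¬ (lt a c ∧ lt c a')

/-- The bispecial word `w` has a connection. -/
def HasConnection {A : Type} (L : Set (List A)) (lA lD : A → A → Prop) (w : List A) : Prop :=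
  ∃ a a' b b' : A, Consecutive lA a a' ∧ Consecutive lD b b' ∧
    a :: (w ++ [b]) ∈ L ∧ a' :: (w ++ [b']) ∈ L ∧ a :: (w ++ [b']) ∉ L ∧ a' :: (w ++ [b]) ∉ L

/-- `L` has no connection. -/
def NoConnection {A : Type} (L : Set (List A)) (lA lD : A → A → Prop) : Prop :=
  ∀ w, IsBispecial L w → ¬ HasConnection L lA lD w

/-- The palindromic complexity: the number of palindromes of length `n` in `L`. -/
noncomputable def PC {A : Type} (L : Set (List A)) (n : ℕ) : ℕ :=
  Set.ncard {w : List A | w ∈ L ∧ w.length = n ∧ w.reverse = w}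

/-- The two-letter words of the counterexample (letters `0, …, k-1`). -/
def P (k : ℕ) (a b : Fin k) : Prop :=
  (b.val = k - 1 ∧ a.val ≠ k - 1) ∨ a.val = k - 2 ∨ (a.val = k - 1 ∧ b.val = 0)

/-- Words of length `n` of the counterexample. -/
def inL (k : ℕ) : ℕ → List (Fin k) → Prop
  | 0, w => w = []
  | 1, w => ∃ a, w = [a]
  | 2, w => ∃ a b, w = [a, b] ∧ P k a b
  | (n + 3), w => ∃ a v b, w = a :: (v ++ [b]) ∧ inL k (n + 2) (a :: v) ∧
      inL k (n + 2) (v ++ [b]) ∧
      ((∀ b', inL k (n + 2) (v ++ [b']) → b' ≤ b) ∨ (∀ a', inL k (n + 2) (a' :: v) → a' ≤ a))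

/-- The language of the counterexample. -/
def Lang (k : ℕ) : Set (List (Fin k)) := {w | inL k w.length w}

section proofs

variable {k : ℕ}

lemma inL_length : ∀ (n : ℕ) (w : List (Fin k)), inL k n w → w.length = n
  | 0, w, h => by simp only [inL] at h; simp [h]
  | 1, w, h => by simp only [inL] at h; obtain ⟨a, rfl⟩ := h; simp
  | 2, w, h => by simp only [inL] at h; obtain ⟨a, b, rfl, _⟩ := h; simp
  | (n + 3), w, h => by
      simp only [inL] at h
      obtain ⟨a, v, b, rfl, h1, _, _⟩ := h
      have := inL_length (n + 2) _ h1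
      simp only [List.length_cons, List.length_append, List.length_nil] at this ⊢
      omega

/-- The rule for words of length at least three. -/
lemma inL_three (n : ℕ) (a : Fin k) (v : List (Fin k)) (b : Fin k) :
    inL k (n + 3) (a :: (v ++ [b])) ↔ inL k (n + 2) (a :: v) ∧ inL k (n + 2) (v ++ [b]) ∧
      ((∀ b', inL k (n + 2) (v ++ [b']) → b' ≤ b) ∨
        (∀ a', inL k (n + 2) (a' :: v) → a' ≤ a)) := by
  constructor
  · intro h
    simp only [inL] at h
    obtain ⟨a₁, v₁, b₁, he, h1, h2, h3⟩ := h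
    obtain ⟨rfl, he2⟩ := List.cons_eq_cons.1 he
    obtain ⟨rfl, hb⟩ := List.append_inj' he2 rfl
    obtain rfl : b = b₁ := by simpa using hb
    exact ⟨h1, h2, h3⟩
  · rintro ⟨h1, h2, h3⟩
    simp only [inL]
    exact ⟨a, v, b, rfl, h1, h2, h3⟩

lemma inL_two (a b : Fin k) : inL k 2 [a, b] ↔ P k a b := by
  simp only [inL]
  constructor
  · rintro ⟨a₁, b₁, he, h⟩
    simp only [List.cons.injEq, and_true] at he
    obtain ⟨rfl, rfl⟩ := he
    exact h
  · intro h
    exact ⟨a, b, rfl, h⟩

lemma fact_left (n : ℕ) (a : Fin k) (u : List (Fin k)) (h : inL k (n + 1) (a :: u)) :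
    inL k n u := by
  match n, h with
  | 0, h =>
    simp only [inL] at h ⊢
    obtain ⟨b, hb⟩ := h
    simpa using (List.cons_eq_cons.1 hb).2
  | 1, h =>
    simp only [inL] at h ⊢
    obtain ⟨b, c, hb, _⟩ := h
    exact ⟨c, (List.cons_eq_cons.1 hb).2⟩
  | (n + 2), h =>
    simp only [inL] at h
    obtain ⟨b, v, c, hb, _, h2, _⟩ := h
    rw [(List.cons_eq_cons.1 hb).2]
    exact h2

lemma fact_right (n : ℕ) (u : List (Fin k)) (b : Fin k) (h : inL k (n + 1) (u ++ [b])) :
    inL k n u := by
  have hlen := inL_length _ _ h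
  match n, h with
  | 0, h =>
    simp only [List.length_append, List.length_cons, List.length_nil] at hlen
    simp only [inL]
    exact List.eq_nil_of_length_eq_zero (by omega)
  | 1, h =>
    simp only [List.length_append, List.length_cons, List.length_nil] at hlen
    simp only [inL]
    exact List.length_eq_one_iff.1 (by omega)
  | (n + 2), h =>
    simp only [inL] at h
    obtain ⟨c, v, d, hb, h1, _, _⟩ := h
    rw [← List.cons_append] at hb
    obtain ⟨rfl, _⟩ := List.append_inj' hb rfl
    exact h1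

lemma exists_max (S : Fin k → Prop) (h : ∃ b, S b) : ∃ b, S b ∧ ∀ b', S b' → b' ≤ b := by
  classical
  obtain ⟨b, hb⟩ := h
  have hne : (Finset.univ.filter S).Nonempty := ⟨b, by simp [hb]⟩
  refine ⟨(Finset.univ.filter S).max' hne, ?_, ?_⟩
  · have := Finset.max'_mem _ hne
    simpa using this
  · intro b' hb'
    exact Finset.le_max' _ _ (by simp [hb'])

lemma ext_right (hk : 4 ≤ k) (n : ℕ) : ∀ v : List (Fin k), inL k n v →
    ∃ b, inL k (n + 1) (v ++ [b]) := by
  induction n with
  | zero =>
    intro v hv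
    simp only [inL] at hv
    subst hv
    exact ⟨⟨0, by omega⟩, by simp [inL]⟩
  | succ n ih =>
    intro v hv
    match n, hv, ih with
    | 0, hv, _ =>
      simp only [inL] at hv
      obtain ⟨a, rfl⟩ := hv
      by_cases ha : a.val = k - 1
      · refine ⟨⟨0, by omega⟩, ?_⟩
        have : P k a ⟨0, by omega⟩ := Or.inr (Or.inr ⟨ha, rfl⟩)
        simpa using (inL_two a _).2 this
      · refine ⟨⟨k - 1, by omega⟩, ?_⟩
        have : P k a ⟨k - 1, by omega⟩ := Or.inl ⟨rfl, ha⟩
        simpa using (inL_two a _).2 this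
    | (n + 1), hv, ih =>
      have hlen := inL_length _ _ hv
      obtain ⟨a, u, rfl⟩ : ∃ a u, v = a :: u := by
        cases v with
        | nil => simp at hlen
        | cons a u => exact ⟨a, u, rfl⟩
      obtain ⟨b, hb, hmax⟩ := exists_max (fun b => inL k (n + 2) (u ++ [b]))
        (ih u (fact_left _ _ _ hv))
      refine ⟨b, ?_⟩
      rw [List.cons_append]
      exact (inL_three n a u b).2 ⟨hv, hb, Or.inl hmax⟩

lemma ext_left (hk : 4 ≤ k) (n : ℕ) : ∀ v : List (Fin k), inL k n v →
    ∃ a, inL k (n + 1) (a :: v) := by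
  induction n with
  | zero =>
    intro v hv
    simp only [inL] at hv
    subst hv
    exact ⟨⟨0, by omega⟩, by simp [inL]⟩
  | succ n ih =>
    intro v hv
    match n, hv, ih with
    | 0, hv, _ =>
      simp only [inL] at hv
      obtain ⟨b, rfl⟩ := hv
      refine ⟨⟨k - 2, by omega⟩, ?_⟩
      have : P k ⟨k - 2, by omega⟩ b := Or.inr (Or.inl rfl)
      exact (inL_two _ b).2 this
    | (n + 1), hv, ih =>
      have hlen := inL_length _ _ hv
      obtain ⟨u, b, rfl⟩ : ∃ u b, v = u ++ [b] := by
        rcases List.eq_nil_or_concat v with h | ⟨u, b, h⟩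
        · simp [h] at hlen
        · exact ⟨u, b, by simpa using h⟩
      obtain ⟨a, ha, hmax⟩ := exists_max (fun a => inL k (n + 2) (a :: u))
        (ih u (fact_right _ _ _ hv))
      exact ⟨a, (inL_three n a u b).2 ⟨ha, hv, Or.inr hmax⟩⟩

lemma mem_cons (n : ℕ) (a : Fin k) (v : List (Fin k)) (hv : v.length = n) :
    a :: v ∈ Lang k ↔ inL k (n + 1) (a :: v) := by
  simp [Lang, hv]

lemma mem_append (n : ℕ) (v : List (Fin k)) (b : Fin k) (hv : v.length = n) :
    v ++ [b] ∈ Lang k ↔ inL k (n + 1) (v ++ [b]) := by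
  simp [Lang, hv]

lemma mem_both (n : ℕ) (a : Fin k) (v : List (Fin k)) (b : Fin k) (hv : v.length = n) :
    a :: (v ++ [b]) ∈ Lang k ↔ inL k (n + 2) (a :: (v ++ [b])) := by
  simp [Lang, hv]

lemma isLanguage (hk : 4 ≤ k) : IsLanguage (Lang k) where
  nil_mem := by simp [Lang, inL]
  letters := fun a => by simp [Lang, inL]
  factorial_left := fun a u h => fact_left _ a u ((mem_cons _ a u rfl).1 h)
  factorial_right := fun u b h => fact_right _ u b ((mem_append _ u b rfl).1 h)
  extendable_left := fun v hv => by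
    obtain ⟨a, ha⟩ := ext_left hk _ v hv
    exact ⟨a, (mem_cons _ a v rfl).2 ha⟩
  extendable_right := fun v hv => by
    obtain ⟨b, hb⟩ := ext_right hk _ v hv
    exact ⟨b, (mem_append _ v b rfl).2 hb⟩

/-- Monotonicity of the extension sets: the staircase is decreasing. -/
lemma stair (v : List (Fin k)) (x x' y y' : Fin k)
    (h : x :: (v ++ [y]) ∈ Lang k) (h' : x' :: (v ++ [y']) ∈ Lang k) (hx : x < x') : y' ≤ y := by
  rcases v with _ | ⟨c, v⟩
  · have h1 : P k x y := (inL_two x y).1 ((mem_both 0 x [] y rfl).1 h)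
    have h2 : P k x' y' := (inL_two x' y').1 ((mem_both 0 x' [] y' rfl).1 h')
    unfold P at h1 h2
    rw [Fin.lt_def] at hx
    rw [Fin.le_def]
    have := x.isLt
    have := x'.isLt
    have := y.isLt
    have := y'.isLt
    omega
  · have h1 := (inL_three _ x (c :: v) y).1 ((mem_both _ x (c :: v) y rfl).1 h)
    have h2 := (inL_three _ x' (c :: v) y').1 ((mem_both _ x' (c :: v) y' rfl).1 h')
    rcases h1.2.2 with h3 | h3
    · exact h3 _ h2.2.1
    · exact absurd (h3 _ h2.1) (not_le.2 hx)

lemma orderCondition : OrderCondition (Lang k) (· < ·) (fun a b => b < a) := by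
  intro v _ x x' y y' h h' hx hy
  constructor
  · intro hlt
    exact lt_of_le_of_ne (stair v x x' y y' h h' hlt) hy.symm
  · intro hlt
    rcases lt_or_gt_of_ne hx with h1 | h1
    · exact h1
    · exact absurd (stair v x' x y' y h' h h1) (not_le.2 hlt)

lemma noConnection (hk : 4 ≤ k) : NoConnection (Lang k) (· < ·) (fun a b => b < a) := by
  rintro v _ ⟨a, a', b, b', ⟨ha, hac⟩, ⟨hb, _⟩, h1, h2, h3, h4⟩
  rcases v with _ | ⟨c, v⟩
  · have e1 : P k a b := (inL_two a b).1 ((mem_both 0 a [] b rfl).1 h1)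
    have e2 : P k a' b' := (inL_two a' b').1 ((mem_both 0 a' [] b' rfl).1 h2)
    have e3 : ¬ P k a b' := fun h => h3 ((mem_both 0 a [] b' rfl).2 ((inL_two a b').2 h))
    have e4 : ¬ P k a' b := fun h => h4 ((mem_both 0 a' [] b rfl).2 ((inL_two a' b).2 h))
    unfold P at e1 e2 e3 e4
    have hpen := hac ⟨k - 2, by omega⟩
    simp only [Fin.lt_def] at ha hb hpen
    have := a.isLt
    have := a'.isLt
    have := b.isLt
    have := b'.isLt
    omega
  · have f1 := (inL_three _ a (c :: v) b).1 ((mem_both _ a (c :: v) b rfl).1 h1)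
    have f2 := (inL_three _ a' (c :: v) b').1 ((mem_both _ a' (c :: v) b' rfl).1 h2)
    have f4 : ¬ inL k (v.length + 3) (a' :: ((c :: v) ++ [b])) := fun h =>
      h4 ((mem_both _ a' (c :: v) b rfl).2 h)
    rcases f1.2.2 with h5 | h5
    · apply f4
      exact (inL_three _ a' (c :: v) b).2 ⟨f2.1, f1.2.1, Or.inl h5⟩
    · exact absurd (h5 _ f2.1) (not_le.2 ha)

/-- The palindromes of length three. -/
lemma pal_three (hk : 4 ≤ k) :
    {w : List (Fin k) | w ∈ Lang k ∧ w.length = 3 ∧ w.reverse = w} =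
      {[⟨k - 1, by omega⟩, ⟨0, by omega⟩, ⟨k - 1, by omega⟩],
       [⟨k - 2, by omega⟩, ⟨k - 2, by omega⟩, ⟨k - 2, by omega⟩],
       [⟨0, by omega⟩, ⟨k - 1, by omega⟩, ⟨0, by omega⟩]} := by
  have key : ∀ a x : Fin k, [a, x, a] ∈ Lang k ↔ P k a x ∧ P k x a ∧
      ((∀ b', P k x b' → b' ≤ a) ∨ (∀ a', P k a' x → a' ≤ a)) := by
    intro a x
    have h := inL_three 0 a [x] a
    simp only [List.singleton_append, inL_two, zero_add] at h
    exact h
  ext w
  simp only [Set.mem_ofPred_eq, Set.mem_insert_iff, Set.mem_singleton_iff]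
  constructor
  · rintro ⟨h1, h2, h3⟩
    obtain ⟨a, x, c, rfl⟩ := List.length_eq_three.1 h2
    simp only [List.reverse_cons, List.reverse_nil, List.nil_append, List.cons_append,
      List.cons.injEq, and_true, true_and] at h3
    obtain ⟨rfl, _⟩ := h3
    obtain ⟨e1, e2, e3⟩ := (key c x).1 h1
    have e4 : x.val = k - 2 → c.val = k - 2 := by
      intro hx
      unfold P at e1
      have := c.isLt
      omega
    simp only [List.cons.injEq, and_true, Fin.ext_iff]
    unfold P at e1 e2
    have := c.isLt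
    have := x.isLt
    omega
  · rintro (rfl | rfl | rfl)
    · refine ⟨(key _ _).2 ⟨?_, ?_, Or.inl ?_⟩, rfl, rfl⟩
      · exact Or.inr (Or.inr ⟨rfl, rfl⟩)
      · exact Or.inl ⟨rfl, by simp only; omega⟩
      · intro b' _
        rw [Fin.le_def]
        have := b'.isLt
        simp only
        omega
    · refine ⟨(key _ _).2 ⟨?_, ?_, Or.inr ?_⟩, rfl, rfl⟩
      · exact Or.inr (Or.inl rfl)
      · exact Or.inr (Or.inl rfl)
      · intro a' h
        unfold P at h
        rw [Fin.le_def]
        have := a'.isLt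
        simp only at h ⊢
        omega
    · refine ⟨(key _ _).2 ⟨?_, ?_, Or.inl ?_⟩, rfl, rfl⟩
      · exact Or.inl ⟨rfl, by simp only; omega⟩
      · exact Or.inr (Or.inr ⟨rfl, rfl⟩)
      · intro b' h
        unfold P at h
        rw [Fin.le_def]
        simp only at h ⊢
        omega

lemma pc_three (hk : 4 ≤ k) : PC (Lang k) 3 = 3 := by
  unfold PC
  rw [pal_three hk]
  rw [Set.ncard_eq_three]
  refine ⟨_, _, _, ?_, ?_, ?_, rfl⟩
  · simp only [ne_eq, List.cons.injEq, Fin.mk.injEq, not_and]
    omega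
  · simp only [ne_eq, List.cons.injEq, Fin.mk.injEq, not_and]
    omega
  · simp only [ne_eq, List.cons.injEq, Fin.mk.injEq, not_and]
    omega

end proofs

/-- For every `k ≥ 4` there is a language on `k` letters satisfying a symmetric order condition
without connection that has only three palindromes of length three. -/
theorem result (k : ℕ) (hk : 4 ≤ k) : ∃ L : Set (List (Fin k)), IsLanguage L ∧
    OrderCondition L (· < ·) (fun a b => b < a) ∧ NoConnection L (· < ·) (fun a b => b < a) ∧
    PC L 3 = 3 :=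
  ⟨Lang k, isLanguage hk, orderCondition, noConnection hk, pc_three hk⟩

end Pool.Agent.Results.MP_0168d2_co.PalindromeDeficit
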